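import Mathlib
import Pool.Agent.H1.Mult

set_option autoImplicit false

namespace Pool.Agent.Results.MP_0896da_co.Order

open Pool.Agent.H1.Mult

/-- `S` is a Sidon set. -/
def IsSidon (S : Finset ℕ) : Prop :=
  ∀ x ∈ S, ∀ y ∈ S, ∀ u ∈ S, ∀ v ∈ S, x + y = u + v → (x = u ∧ y = v) ∨ (x = v ∧ y = u)

open Classical in
/-- `s(n)`: the largest size of a Sidon subset of `Mset n`. -/
noncomputable def s (n : ℕ) : ℕ := ((Mset n).powerset.filter IsSidon).sup Finset.card

theorem result :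
    ∀ n : ℕ, 5 ≤ n → (1 / 96 : ℝ) * ((Mset n).card : ℝ) ≤ ((Mset n).card : ℝ) - (s n : ℝ) := by
  intro n hn
  classical
  obtain ⟨m, rfl⟩ : ∃ m, n = m + 5 := ⟨n - 5, by omega⟩
  obtain ⟨S, hS, e⟩ := Finset.exists_mem_eq_sup ((Mset (m + 5)).powerset.filter IsSidon)
    ⟨∅, by simp [IsSidon]⟩ Finset.card
  rw [Finset.mem_filter, Finset.mem_powerset] at hS
  have h := sidon_defect m S hS.1 hS.2
  have e' : s (m + 5) = S.card := by rw [← e, s]
  rw [e']
  have h' : ((Mset (m + 5)).card : ℝ) + 96 * S.card ≤ 96 * (Mset (m + 5)).card := by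
    exact_mod_cast h
  linarith

end Pool.Agent.Results.MP_0896da_co.Order
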